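import Pool.Agent.QSN.StmtsB2

set_option autoImplicit false

/-! # Row MDV: the differences of the gauge fixed flats over the residue field -/

namespace Pool.Agent.QSN.H41

open Matrix Finset Pool.Agent.QSX Filter Topology

theorem cont_mexp (m : ℕ) : Continuous (fun x : Matrix (Fin m) (Fin m) ℝ => mexp x) := by
  unfold mexp
  refine continuous_finsetSum _ fun k _ => ?_
  exact Continuous.const_smul (g := fun x : Matrix (Fin m) (Fin m) ℝ => x ^ k)
    (continuous_pow k) ((k.factorial : ℝ)⁻¹)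

theorem cont_mlog (m : ℕ) : Continuous (fun x : Matrix (Fin m) (Fin m) ℝ => mlog x) := by
  unfold mlog
  refine continuous_finsetSum _ fun k _ => ?_
  exact Continuous.const_smul (g := fun x : Matrix (Fin m) (Fin m) ℝ => (x - 1) ^ k)
    ((continuous_pow k).comp (continuous_id.sub continuous_const)) ((-1 : ℝ) ^ (k + 1) / (k : ℝ))

/-- The logarithm of a difference of bounded elements is bounded. -/
theorem bdd_log (m : ℕ) (K : ℝ) : ∃ C : ℝ, ∀ x x' : Matrix (Fin m) (Fin m) ℝ,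
    (∀ i j, |x i j| ≤ K) → (∀ i j, |x' i j| ≤ K) →
      ∀ i j, |mlog (mexp (-x) * mexp x') i j| ≤ C := by
  set B : Set (Matrix (Fin m) (Fin m) ℝ) :=
    Set.univ.pi fun _ => Set.univ.pi fun _ => Set.Icc (-K) K with hB
  have hBc : IsCompact B := isCompact_univ_pi fun _ => isCompact_univ_pi fun _ => isCompact_Icc
  have hf : Continuous (fun p : Matrix (Fin m) (Fin m) ℝ × Matrix (Fin m) (Fin m) ℝ =>
      mlog (mexp (-p.1) * mexp p.2)) := by
    apply (cont_mlog m).comp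
    exact ((cont_mexp m).comp continuous_fst.neg).mul ((cont_mexp m).comp continuous_snd)
  have hg : ∀ i j, Continuous (fun p : Matrix (Fin m) (Fin m) ℝ × Matrix (Fin m) (Fin m) ℝ =>
      mlog (mexp (-p.1) * mexp p.2) i j) := by
    intro i j
    exact (continuous_apply j).comp ((continuous_apply i).comp hf)
  have h1 : ∀ i j, ∃ C : ℝ, ∀ p ∈ B ×ˢ B, ‖mlog (mexp (-p.1) * mexp p.2) i j‖ ≤ C := fun i j =>
    (hBc.prod hBc).exists_bound_of_continuousOn (hg i j).continuousOn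
  choose C hC using h1
  refine ⟨∑ i, ∑ j, |C i j|, fun x x' hx hx' i j => ?_⟩
  have h2 := hC i j (x, x') ⟨fun a _ b _ => abs_le.1 (hx a b), fun a _ b _ => abs_le.1 (hx' a b)⟩
  rw [Real.norm_eq_abs] at h2
  have h3 : |C i j| ≤ ∑ j, |C i j| :=
    Finset.single_le_sum (f := fun j => |C i j|) (fun _ _ => abs_nonneg _) (Finset.mem_univ j)
  have h4 : ∑ j, |C i j| ≤ ∑ i, ∑ j, |C i j| :=
    Finset.single_le_sum (f := fun i => ∑ j, |C i j|)
      (fun _ _ => Finset.sum_nonneg fun _ _ => abs_nonneg _) (Finset.mem_univ i)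
  exact (h2.trans (le_abs_self _)).trans (h3.trans h4)

theorem inv_ue {m : ℕ} {x : Matrix (Fin m) (Fin m) ℝ} (hx : SU x) : (ue x)⁻¹ = ue (-x) := by
  apply Units.ext
  rw [ue_inv_val hx, ue_val hx.neg]

/-- MDV -/
theorem mdv (nre : Pool.Agent.QSX.NreStmt) (rdm : Pool.Agent.QSX.RdmStmt)
    (rlg : Pool.Agent.QSX.RlgStmt) (rnf : Pool.Agent.QSX.RnfStmt)
    (bch : Pool.Agent.QSX.BchStmt) (lgm : Pool.Agent.QSX.LgmStmt) : MdvStmt := by
  intro X Y hX H A
  obtain ⟨rMul, -, rConst, -, rZero⟩ := rdm A.S Y.m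
  have hdif : ∀ (Z : Dat) (x y : Matrix (Fin Z.m) (Fin Z.m) ℝ), x ∈ Z.n → y ∈ Z.n →
      ∃ z ∈ Z.n, (ue x)⁻¹ * ue y = ue z := by
    intro Z x y hx hy
    rw [inv_ue (Z.su x hx)]
    exact bch ℝ Z.m Z.n Z.su Z.lie (-x) (Z.n.neg_mem hx) y hy
  have hv : ∀ (n n' : ℕ → UX X) (s : ℕ), ∃ y ∈ Y.n, (A.χ s (n s))⁻¹ * A.χ s (n' s) = ue y := by
    intro n n' s
    obtain ⟨x, hx, e1⟩ := A.χn s (n s)
    obtain ⟨y, hy, e2⟩ := A.χn s (n' s)
    rw [e1, e2]
    exact hdif Y x y hx hy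
  have hUU : ∀ (n n' : ℕ → UX X) (s : ℕ),
      UU (((A.χ s (n s))⁻¹ * A.χ s (n' s) : UX Y) : Matrix (Fin Y.m) (Fin Y.m) ℝ) := by
    intro n n' s
    obtain ⟨y, hy, e⟩ := hv n n' s
    rw [e, ue_val (Y.su y hy)]
    exact ((lgm ℝ Y.m).1 y (Y.su y hy)).1
  have hMd : ∀ n n' : ℕ → UX X, A.GB n → A.GB n' → A.S.MdM (fun s =>
      (((A.χ s (n s))⁻¹ * A.χ s (n' s) : UX Y) : Matrix (Fin Y.m) (Fin Y.m) ℝ)) := by
    intro n n' hn hn'
    obtain ⟨K, hK⟩ := hn.2
    obtain ⟨K', hK'⟩ := hn'.2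
    obtain ⟨C, hC⟩ := bdd_log X.m (max K K')
    have hcl := A.near n n' hn.1 hn'.1 hn.2 hn'.2 Set.univ
      (fun s => mlog (((n s)⁻¹ * n' s : UX X) : Matrix (Fin X.m) (Fin X.m) ℝ)) C 0 le_rfl (by
        filter_upwards [hK, hK'] with s hs hs'
        obtain ⟨x, hx, e1, b1⟩ := hs
        obtain ⟨x', hx', e2, b2⟩ := hs'
        obtain ⟨z, hz, e3⟩ := hdif X x x' hx hx'
        have e4 : mlog (((n s)⁻¹ * n' s : UX X) : Matrix (Fin X.m) (Fin X.m) ℝ) = z := by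
          rw [e1, e2, e3, ue_val (X.su z hz)]
          exact ((lgm ℝ X.m).1 z (X.su z hz)).2
        refine ⟨?_, ?_, ?_⟩
        · rw [e4, Set.image_univ, hX.span_e]
          exact hz
        · intro i j
          have h1 : (((n s)⁻¹ * n' s : UX X) : Matrix (Fin X.m) (Fin X.m) ℝ) =
              mexp (-x) * mexp x' := by
            rw [e1, e2, Units.val_mul, ue_inv_val (X.su x hx), ue_val (X.su x' hx')]
          rw [h1, zero_mul, neg_zero, Real.exp_zero, mul_one]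
          exact hC x x' (fun i j => (b1 i j).trans (le_max_left _ _))
            (fun i j => (b2 i j).trans (le_max_right _ _)) i j
        · rw [e4, ← e3, e1, e2, mul_inv_cancel_left])
    refine (nre A.S X.b Y.m A.P {a | ∀ ν ∈ (Set.univ : Set hX.ι), -(0 : ℝ) ≤ hX.rt ν a} ?_ ?_ _
      (hUU n n') hcl).1
    · intro ν _
      rw [map_zero, neg_zero]
    · intro a ha c hc ν hν
      have h1 := ha ν hν
      rw [neg_zero] at h1 ⊢
      rw [map_smul, smul_eq_mul]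
      exact mul_nonneg hc h1
  refine ⟨fun n n' hn hn' => ⟨hMd n n' hn hn', ?_⟩, ?_, ?_⟩
  · have hm : ∀ s, mlog (((A.χ s (n s))⁻¹ * A.χ s (n' s) : UX Y) :
        Matrix (Fin Y.m) (Fin Y.m) ℝ) ∈ Y.n ∧
        mexp (mlog (((A.χ s (n s))⁻¹ * A.χ s (n' s) : UX Y) :
          Matrix (Fin Y.m) (Fin Y.m) ℝ)) =
        (((A.χ s (n s))⁻¹ * A.χ s (n' s) : UX Y) : Matrix (Fin Y.m) (Fin Y.m) ℝ) := by
      intro s
      refine ⟨?_, ((lgm ℝ Y.m).2 _ (hUU n n' s)).2⟩
      obtain ⟨y, hy, e⟩ := hv n n' s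
      rw [e, ue_val (Y.su y hy), ((lgm ℝ Y.m).1 y (Y.su y hy)).2]
      exact hy
    have h1 := (rlg A.S Y.m _ (hMd n n' hn hn')).2
    have h2 := rnf A.S Y _ (fun s => (hm s).1) h1.1
    have h3 := ((rlg A.S Y.m _ h1.1).1).2
    refine ⟨_, h2, ?_⟩
    rw [← h3]
    show A.S.redM _ = A.S.redM _
    congr 1
    funext s
    exact (hm s).2.symm
  · intro n n' n'' hn hn' hn''
    have h1 := (rMul _ _ (hMd n n' hn hn') (hMd n' n'' hn' hn'')).2
    show A.S.redM _ = A.S.redM _ * A.S.redM _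
    rw [← h1]
    congr 1
    funext s
    rw [← Units.val_mul]
    congr 1
    show (A.χ s (n s))⁻¹ * A.χ s (n'' s) =
      ((A.χ s (n s))⁻¹ * A.χ s (n' s)) * ((A.χ s (n' s))⁻¹ * A.χ s (n'' s))
    group
  · intro n _
    have h1 := (rConst 1).2
    rw [Matrix.map_one _ (map_zero _) (map_one _)] at h1
    rw [← h1]
    show A.S.redM _ = A.S.redM _
    congr 1
    funext s
    show (((A.χ s (n s))⁻¹ * A.χ s (n s) : UX Y) : Matrix (Fin Y.m) (Fin Y.m) ℝ) = 1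
    rw [inv_mul_cancel, Units.val_one]

end Pool.Agent.QSN.H41
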